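import Pool.Agent.Y403.CH.Src

/-!
# The degrees of the graphs of the reduction
-/

set_option autoImplicit false

namespace Pool.Agent.Y403.CH

open Pool.Agent.NPC Pool.Agent.H673R2 Pool.Agent.W982.Hole

/-- the copy before a given copy of a variable -/
def prev (φ : F3) (i : ℕ) : ℕ := (i / N φ) * N φ + (i % N φ + N φ - 1) % N φ

/-- where the literal `i` with the sign `t` can be -/
def Occ (φ : F3) (t : Bool) (i j p : ℕ) : Prop :=
  (3 * j + p = i % N φ) ∨ (t = false ∧ p = 0 ∧ j = φ.length + i) ∨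
    (t = true ∧ (p = 1 ∨ p = 2) ∧ j = φ.length + prev φ i)

/-- the edges in terms of numbers -/
theorem nf {φ : F3} (hb : Bounded3 φ) {M a b : ℕ} (hM : M = (sp φ).length)
    (h : R (sp φ) a b) :
    ((a = 0 ∧ b = 1) ∨ (a = 0 ∧ b = 2 + 25 * M) ∨ (a = 1 + 25 * M ∧ b = 3 + 40 * M) ∨
      (a = 2 + 40 * M ∧ b = 3 + 40 * M)) ∨
    (∃ i s s', i < 3 * M ∧ ((s = 1 + 5 * i ∧ s' = 2 + 25 * M + 5 * i) ∨
        (s = 2 + 25 * M + 5 * i ∧ s' = 1 + 5 * i)) ∧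
      ((a = s ∧ b = s + 1) ∨ (a = s ∧ b = s + 2) ∨ (a = s + 2 ∧ b = s + 3) ∨
        (a = s + 3 ∧ b = s + 4) ∨ (a = s + 1 ∧ b = s + 5) ∨ (a = s + 4 ∧ b = s + 5) ∨
        (a = s + 1 ∧ b = s + 3) ∨ (a = s + 1 ∧ b = s' + 3))) ∨
    (∃ j p, j < M ∧ p < 3 ∧ ((a = 1 + 15 * M + 10 * j ∧ b = a + 3 * p + 1) ∨
      (a = 1 + 15 * M + 10 * j + 3 * p + 1 ∧ b = a + 1) ∨
      (a = 1 + 15 * M + 10 * j + 3 * p + 2 ∧ b = a + 1) ∨
      (a = 1 + 15 * M + 10 * j + 3 * p + 3 ∧ b = 1 + 15 * M + 10 * j + 10))) ∨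
    (∃ j p i s, j < M ∧ p < 3 ∧ i < 3 * M ∧ (s = 1 + 5 * i ∨ s = 2 + 25 * M + 5 * i) ∧
      i = (lit (sp φ) j p).2 ∧
      ((Occ φ true i j p ∧ a = 1 + 15 * M + 10 * j + 3 * p + 1 ∧ b = s + 3) ∨
        (Occ φ false i j p ∧ a = 1 + 15 * M + 10 * j + 3 * p + 2 ∧ b = s + 1))) := by
  unfold R at h
  rw [← hM] at h
  have hsb := sp_bounded hb
  rcases h with h | h | h | h | ⟨i, hi, σ, h⟩ | ⟨j, hj, p, hp, h⟩
  · left; left; rw [svf] at h; omega
  · left; right; left; rw [svt] at h; omega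
  · left; right; right; left; unfold cv at h; omega
  · left; right; right; right; rw [svt] at h; omega
  · right; left
    cases σ
    · refine ⟨i, 1 + 5 * i, 2 + 25 * M + 5 * i, hi, Or.inl ⟨rfl, rfl⟩, ?_⟩
      simp only [svf, svt, Bool.not_false] at h
      refine h.imp ?_ (Or.imp ?_ (Or.imp ?_ (Or.imp ?_ (Or.imp ?_ (Or.imp ?_ (Or.imp ?_ ?_))))))
      all_goals (rintro ⟨k1, k2⟩; exact ⟨by omega, by omega⟩)
    · refine ⟨i, 2 + 25 * M + 5 * i, 1 + 5 * i, hi, Or.inr ⟨rfl, rfl⟩, ?_⟩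
      simp only [svf, svt, Bool.not_true] at h
      refine h.imp ?_ (Or.imp ?_ (Or.imp ?_ (Or.imp ?_ (Or.imp ?_ (Or.imp ?_ (Or.imp ?_ ?_))))))
      all_goals (rintro ⟨k1, k2⟩; exact ⟨by omega, by omega⟩)
  · right; right
    unfold cv at h
    rcases h with h | h | h | h | ⟨σ, h1, h2, h3⟩ | ⟨σ, h1, h2, h3⟩
    · left; exact ⟨j, p, hj, hp, Or.inl ⟨by omega, by omega⟩⟩
    · left; exact ⟨j, p, hj, hp, Or.inr (Or.inl ⟨by omega, by omega⟩)⟩
    · left; exact ⟨j, p, hj, hp, Or.inr (Or.inr (Or.inl ⟨by omega, by omega⟩))⟩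
    · left; exact ⟨j, p, hj, hp, Or.inr (Or.inr (Or.inr ⟨by omega, by omega⟩))⟩
    · right
      have h4 := lit_lt hsb (p := p) (j := j) (by omega)
      have h5 := lit_cases hb (j := j) (p := p) (by omega) hp
      rw [h1] at h5
      refine ⟨j, p, _, if σ then 2 + 25 * M + 5 * (lit (sp φ) j p).2 else
        1 + 5 * (lit (sp φ) j p).2, hj, hp, by omega, ?_, rfl, Or.inl ⟨h5, by omega, ?_⟩⟩
      · cases σ <;> simp
      · rw [h3]; cases σ <;> simp [sv]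
    · right
      have h4 := lit_lt hsb (p := p) (j := j) (by omega)
      have h5 := lit_cases hb (j := j) (p := p) (by omega) hp
      rw [h1] at h5
      refine ⟨j, p, _, if σ then 2 + 25 * M + 5 * (lit (sp φ) j p).2 else
        1 + 5 * (lit (sp φ) j p).2, hj, hp, by omega, ?_, rfl, Or.inr ⟨h5, by omega, ?_⟩⟩
      · cases σ <;> simp
      · rw [h3]; cases σ <;> simp [sv]

/-- a neighbour of `x` -/
def Nb (φ : F3) (x y : ℕ) : Prop := R (sp φ) x y ∨ R (sp φ) y x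

end Pool.Agent.Y403.CH
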