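import Pool.Agent.Y403.CH.Deg

/-!
# All degrees are at most seven
-/

set_option autoImplicit false
set_option linter.all false

namespace Pool.Agent.Y403.CH

open Pool.Agent.NPC Pool.Agent.H673R2 Pool.Agent.W982.Hole

variable {φ : F3} {M : ℕ}

theorem deg_cl0 (hb : Bounded3 φ) (hM : M = (sp φ).length) {J : ℕ} (hJ : J ≤ M) :
    ∃ l : List ℕ, l.length ≤ 7 ∧ ∀ y, Nb φ (1 + 15 * M + 10 * J) y → y ∈ l := by
  refine ⟨[1 + 15 * M + 10 * J - 1,
    1 + 15 * M + 10 * J - 4,
    1 + 15 * M + 10 * J - 7,
    1 + 15 * M + 10 * J + 1,
    1 + 15 * M + 10 * J + 4,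
    1 + 15 * M + 10 * J + 7,
    3 + 40 * M], by simp, ?_⟩
  intro y hy
  simp only [List.mem_cons, List.not_mem_nil, or_false]
  rcases hy with h | h
  · rcases nf hb hM h with (h | h | h | h) | ⟨i2, s2, s2', h1, ⟨h2, h2'⟩ | ⟨h2, h2'⟩, h3⟩ |
      ⟨j2, p2, h1, h2, h3⟩ |
      ⟨j2, p2, i2, s2, h1, h2, h3, h4, h5, ⟨-, h6, h7⟩ | ⟨-, h6, h7⟩⟩
    iterate 4 · first | (exfalso; omega) | (left; omega) | (right; left; omega) | (right; right; left; omega) | (right; right; right; left; omega) | (right; right; right; right; left; omega) | (right; right; right; right; right; left; omega) | (right; right; right; right; right; right; omega)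
    iterate 2
      · rcases h3 with h3 | h3 | h3 | h3 | h3 | h3 | h3 | h3 <;>
          (first | (exfalso; omega) | (left; omega) | (right; left; omega) | (right; right; left; omega) | (right; right; right; left; omega) | (right; right; right; right; left; omega) | (right; right; right; right; right; left; omega) | (right; right; right; right; right; right; omega))
    · rcases h3 with h3 | h3 | h3 | h3 <;> interval_cases p2 <;> (first | (exfalso; omega) | (left; omega) | (right; left; omega) | (right; right; left; omega) | (right; right; right; left; omega) | (right; right; right; right; left; omega) | (right; right; right; right; right; left; omega) | (right; right; right; right; right; right; omega))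
    · first | (exfalso; omega) | (left; omega) | (right; left; omega) | (right; right; left; omega) | (right; right; right; left; omega) | (right; right; right; right; left; omega) | (right; right; right; right; right; left; omega) | (right; right; right; right; right; right; omega)
    · first | (exfalso; omega) | (left; omega) | (right; left; omega) | (right; right; left; omega) | (right; right; right; left; omega) | (right; right; right; right; left; omega) | (right; right; right; right; right; left; omega) | (right; right; right; right; right; right; omega)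
  · rcases nf hb hM h with (h | h | h | h) | ⟨i2, s2, s2', h1, ⟨h2, h2'⟩ | ⟨h2, h2'⟩, h3⟩ |
      ⟨j2, p2, h1, h2, h3⟩ |
      ⟨j2, p2, i2, s2, h1, h2, h3, h4, h5, ⟨-, h6, h7⟩ | ⟨-, h6, h7⟩⟩
    iterate 4 · first | (exfalso; omega) | (left; omega) | (right; left; omega) | (right; right; left; omega) | (right; right; right; left; omega) | (right; right; right; right; left; omega) | (right; right; right; right; right; left; omega) | (right; right; right; right; right; right; omega)
    iterate 2
      · rcases h3 with h3 | h3 | h3 | h3 | h3 | h3 | h3 | h3 <;>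
          (first | (exfalso; omega) | (left; omega) | (right; left; omega) | (right; right; left; omega) | (right; right; right; left; omega) | (right; right; right; right; left; omega) | (right; right; right; right; right; left; omega) | (right; right; right; right; right; right; omega))
    · rcases h3 with h3 | h3 | h3 | h3 <;> interval_cases p2 <;> (first | (exfalso; omega) | (left; omega) | (right; left; omega) | (right; right; left; omega) | (right; right; right; left; omega) | (right; right; right; right; left; omega) | (right; right; right; right; right; left; omega) | (right; right; right; right; right; right; omega))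
    · first | (exfalso; omega) | (left; omega) | (right; left; omega) | (right; right; left; omega) | (right; right; right; left; omega) | (right; right; right; right; left; omega) | (right; right; right; right; right; left; omega) | (right; right; right; right; right; right; omega)
    · first | (exfalso; omega) | (left; omega) | (right; left; omega) | (right; right; left; omega) | (right; right; right; left; omega) | (right; right; right; right; left; omega) | (right; right; right; right; right; left; omega) | (right; right; right; right; right; right; omega)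

theorem deg_cl1 (hb : Bounded3 φ) (hM : M = (sp φ).length) {J p : ℕ} (hJ : J < M) (hp : p < 3) :
    ∃ l : List ℕ, l.length ≤ 7 ∧ ∀ y, Nb φ (1 + 15 * M + 10 * J + 3 * p + 1) y → y ∈ l := by
  refine ⟨[1 + 15 * M + 10 * J,
    1 + 15 * M + 10 * J + 3 * p + 2,
    1 + 5 * (lit (sp φ) J p).2 + 3,
    2 + 25 * M + 5 * (lit (sp φ) J p).2 + 3], by simp, ?_⟩
  intro y hy
  simp only [List.mem_cons, List.not_mem_nil, or_false]
  rcases hy with h | h
  · rcases nf hb hM h with (h | h | h | h) | ⟨i2, s2, s2', h1, ⟨h2, h2'⟩ | ⟨h2, h2'⟩, h3⟩ |
      ⟨j2, p2, h1, h2, h3⟩ |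
      ⟨j2, p2, i2, s2, h1, h2, h3, h4, h5, ⟨ho, h6, h7⟩ | ⟨-, h6, h7⟩⟩
    iterate 4 · first | (exfalso; omega) | (left; omega) | (right; left; omega) | (right; right; left; omega) | (right; right; right; omega)
    iterate 2
      · rcases h3 with h3 | h3 | h3 | h3 | h3 | h3 | h3 | h3 <;>
          (first | (exfalso; omega) | (left; omega) | (right; left; omega) | (right; right; left; omega) | (right; right; right; omega))
    · rcases h3 with h3 | h3 | h3 | h3 <;> (first | (exfalso; omega) | (left; omega) | (right; left; omega) | (right; right; left; omega) | (right; right; right; omega))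
    · obtain rfl : j2 = J := by omega
      obtain rfl : p2 = p := by omega
      rw [← h5]
      rcases h4 with h4 | h4
      · right; right; left; omega
      · right; right; right; omega
    · first | (exfalso; omega) | (left; omega) | (right; left; omega) | (right; right; left; omega) | (right; right; right; omega)
  · rcases nf hb hM h with (h | h | h | h) | ⟨i2, s2, s2', h1, ⟨h2, h2'⟩ | ⟨h2, h2'⟩, h3⟩ |
      ⟨j2, p2, h1, h2, h3⟩ |
      ⟨j2, p2, i2, s2, h1, h2, h3, h4, h5, ⟨-, h6, h7⟩ | ⟨-, h6, h7⟩⟩
    iterate 4 · first | (exfalso; omega) | (left; omega) | (right; left; omega) | (right; right; left; omega) | (right; right; right; omega)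
    iterate 2
      · rcases h3 with h3 | h3 | h3 | h3 | h3 | h3 | h3 | h3 <;>
          (first | (exfalso; omega) | (left; omega) | (right; left; omega) | (right; right; left; omega) | (right; right; right; omega))
    · rcases h3 with h3 | h3 | h3 | h3 <;> (first | (exfalso; omega) | (left; omega) | (right; left; omega) | (right; right; left; omega) | (right; right; right; omega))
    · first | (exfalso; omega) | (left; omega) | (right; left; omega) | (right; right; left; omega) | (right; right; right; omega)
    · first | (exfalso; omega) | (left; omega) | (right; left; omega) | (right; right; left; omega) | (right; right; right; omega)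

theorem deg_cl2 (hb : Bounded3 φ) (hM : M = (sp φ).length) {J p : ℕ} (hJ : J < M) (hp : p < 3) :
    ∃ l : List ℕ, l.length ≤ 7 ∧ ∀ y, Nb φ (1 + 15 * M + 10 * J + 3 * p + 2) y → y ∈ l := by
  refine ⟨[1 + 15 * M + 10 * J + 3 * p + 1,
    1 + 15 * M + 10 * J + 3 * p + 3,
    1 + 5 * (lit (sp φ) J p).2 + 1,
    2 + 25 * M + 5 * (lit (sp φ) J p).2 + 1], by simp, ?_⟩
  intro y hy
  simp only [List.mem_cons, List.not_mem_nil, or_false]
  rcases hy with h | h
  · rcases nf hb hM h with (h | h | h | h) | ⟨i2, s2, s2', h1, ⟨h2, h2'⟩ | ⟨h2, h2'⟩, h3⟩ |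
      ⟨j2, p2, h1, h2, h3⟩ |
      ⟨j2, p2, i2, s2, h1, h2, h3, h4, h5, ⟨-, h6, h7⟩ | ⟨ho, h6, h7⟩⟩
    iterate 4 · first | (exfalso; omega) | (left; omega) | (right; left; omega) | (right; right; left; omega) | (right; right; right; omega)
    iterate 2
      · rcases h3 with h3 | h3 | h3 | h3 | h3 | h3 | h3 | h3 <;>
          (first | (exfalso; omega) | (left; omega) | (right; left; omega) | (right; right; left; omega) | (right; right; right; omega))
    · rcases h3 with h3 | h3 | h3 | h3 <;> (first | (exfalso; omega) | (left; omega) | (right; left; omega) | (right; right; left; omega) | (right; right; right; omega))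
    · first | (exfalso; omega) | (left; omega) | (right; left; omega) | (right; right; left; omega) | (right; right; right; omega)
    · obtain rfl : j2 = J := by omega
      obtain rfl : p2 = p := by omega
      rw [← h5]
      rcases h4 with h4 | h4
      · right; right; left; omega
      · right; right; right; omega
  · rcases nf hb hM h with (h | h | h | h) | ⟨i2, s2, s2', h1, ⟨h2, h2'⟩ | ⟨h2, h2'⟩, h3⟩ |
      ⟨j2, p2, h1, h2, h3⟩ |
      ⟨j2, p2, i2, s2, h1, h2, h3, h4, h5, ⟨-, h6, h7⟩ | ⟨-, h6, h7⟩⟩
    iterate 4 · first | (exfalso; omega) | (left; omega) | (right; left; omega) | (right; right; left; omega) | (right; right; right; omega)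
    iterate 2
      · rcases h3 with h3 | h3 | h3 | h3 | h3 | h3 | h3 | h3 <;>
          (first | (exfalso; omega) | (left; omega) | (right; left; omega) | (right; right; left; omega) | (right; right; right; omega))
    · rcases h3 with h3 | h3 | h3 | h3 <;> (first | (exfalso; omega) | (left; omega) | (right; left; omega) | (right; right; left; omega) | (right; right; right; omega))
    · first | (exfalso; omega) | (left; omega) | (right; left; omega) | (right; right; left; omega) | (right; right; right; omega)
    · first | (exfalso; omega) | (left; omega) | (right; left; omega) | (right; right; left; omega) | (right; right; right; omega)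

theorem deg_cl3 (hb : Bounded3 φ) (hM : M = (sp φ).length) {J p : ℕ} (hJ : J < M) (hp : p < 3) :
    ∃ l : List ℕ, l.length ≤ 7 ∧ ∀ y, Nb φ (1 + 15 * M + 10 * J + 3 * p + 3) y → y ∈ l := by
  refine ⟨[1 + 15 * M + 10 * J + 3 * p + 2,
    1 + 15 * M + 10 * J + 10], by simp, ?_⟩
  intro y hy
  simp only [List.mem_cons, List.not_mem_nil, or_false]
  rcases hy with h | h
  · rcases nf hb hM h with (h | h | h | h) | ⟨i2, s2, s2', h1, ⟨h2, h2'⟩ | ⟨h2, h2'⟩, h3⟩ |
      ⟨j2, p2, h1, h2, h3⟩ |
      ⟨j2, p2, i2, s2, h1, h2, h3, h4, h5, ⟨-, h6, h7⟩ | ⟨-, h6, h7⟩⟩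
    iterate 4 · first | (exfalso; omega) | (left; omega) | (right; omega)
    iterate 2
      · rcases h3 with h3 | h3 | h3 | h3 | h3 | h3 | h3 | h3 <;>
          (first | (exfalso; omega) | (left; omega) | (right; omega))
    · rcases h3 with h3 | h3 | h3 | h3 <;> (first | (exfalso; omega) | (left; omega) | (right; omega))
    · first | (exfalso; omega) | (left; omega) | (right; omega)
    · first | (exfalso; omega) | (left; omega) | (right; omega)
  · rcases nf hb hM h with (h | h | h | h) | ⟨i2, s2, s2', h1, ⟨h2, h2'⟩ | ⟨h2, h2'⟩, h3⟩ |
      ⟨j2, p2, h1, h2, h3⟩ |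
      ⟨j2, p2, i2, s2, h1, h2, h3, h4, h5, ⟨-, h6, h7⟩ | ⟨-, h6, h7⟩⟩
    iterate 4 · first | (exfalso; omega) | (left; omega) | (right; omega)
    iterate 2
      · rcases h3 with h3 | h3 | h3 | h3 | h3 | h3 | h3 | h3 <;>
          (first | (exfalso; omega) | (left; omega) | (right; omega))
    · rcases h3 with h3 | h3 | h3 | h3 <;> (first | (exfalso; omega) | (left; omega) | (right; omega))
    · first | (exfalso; omega) | (left; omega) | (right; omega)
    · first | (exfalso; omega) | (left; omega) | (right; omega)

theorem deg_restA (hb : Bounded3 φ) (hM : M = (sp φ).length)  :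
    ∃ l : List ℕ, l.length ≤ 7 ∧ ∀ y, Nb φ (0) y → y ∈ l := by
  refine ⟨[1,
    2 + 25 * M], by simp, ?_⟩
  intro y hy
  simp only [List.mem_cons, List.not_mem_nil, or_false]
  rcases hy with h | h
  · rcases nf hb hM h with (h | h | h | h) | ⟨i2, s2, s2', h1, ⟨h2, h2'⟩ | ⟨h2, h2'⟩, h3⟩ |
      ⟨j2, p2, h1, h2, h3⟩ |
      ⟨j2, p2, i2, s2, h1, h2, h3, h4, h5, ⟨-, h6, h7⟩ | ⟨-, h6, h7⟩⟩
    iterate 4 · first | (exfalso; omega) | (left; omega) | (right; omega)
    iterate 2
      · rcases h3 with h3 | h3 | h3 | h3 | h3 | h3 | h3 | h3 <;>
          (first | (exfalso; omega) | (left; omega) | (right; omega))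
    · rcases h3 with h3 | h3 | h3 | h3 <;> (first | (exfalso; omega) | (left; omega) | (right; omega))
    · first | (exfalso; omega) | (left; omega) | (right; omega)
    · first | (exfalso; omega) | (left; omega) | (right; omega)
  · rcases nf hb hM h with (h | h | h | h) | ⟨i2, s2, s2', h1, ⟨h2, h2'⟩ | ⟨h2, h2'⟩, h3⟩ |
      ⟨j2, p2, h1, h2, h3⟩ |
      ⟨j2, p2, i2, s2, h1, h2, h3, h4, h5, ⟨-, h6, h7⟩ | ⟨-, h6, h7⟩⟩
    iterate 4 · first | (exfalso; omega) | (left; omega) | (right; omega)
    iterate 2
      · rcases h3 with h3 | h3 | h3 | h3 | h3 | h3 | h3 | h3 <;>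
          (first | (exfalso; omega) | (left; omega) | (right; omega))
    · rcases h3 with h3 | h3 | h3 | h3 <;> (first | (exfalso; omega) | (left; omega) | (right; omega))
    · first | (exfalso; omega) | (left; omega) | (right; omega)
    · first | (exfalso; omega) | (left; omega) | (right; omega)

theorem deg_restB (hb : Bounded3 φ) (hM : M = (sp φ).length)  :
    ∃ l : List ℕ, l.length ≤ 7 ∧ ∀ y, Nb φ (2 + 40 * M) y → y ∈ l := by
  refine ⟨[2 + 40 * M - 1,
    2 + 40 * M - 4,
    3 + 40 * M,
    0], by simp, ?_⟩
  intro y hy
  simp only [List.mem_cons, List.not_mem_nil, or_false]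
  rcases hy with h | h
  · rcases nf hb hM h with (h | h | h | h) | ⟨i2, s2, s2', h1, ⟨h2, h2'⟩ | ⟨h2, h2'⟩, h3⟩ |
      ⟨j2, p2, h1, h2, h3⟩ |
      ⟨j2, p2, i2, s2, h1, h2, h3, h4, h5, ⟨-, h6, h7⟩ | ⟨-, h6, h7⟩⟩
    iterate 4 · first | (exfalso; omega) | (left; omega) | (right; left; omega) | (right; right; left; omega) | (right; right; right; omega)
    iterate 2
      · rcases h3 with h3 | h3 | h3 | h3 | h3 | h3 | h3 | h3 <;>
          (first | (exfalso; omega) | (left; omega) | (right; left; omega) | (right; right; left; omega) | (right; right; right; omega))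
    · rcases h3 with h3 | h3 | h3 | h3 <;> (first | (exfalso; omega) | (left; omega) | (right; left; omega) | (right; right; left; omega) | (right; right; right; omega))
    · first | (exfalso; omega) | (left; omega) | (right; left; omega) | (right; right; left; omega) | (right; right; right; omega)
    · first | (exfalso; omega) | (left; omega) | (right; left; omega) | (right; right; left; omega) | (right; right; right; omega)
  · rcases nf hb hM h with (h | h | h | h) | ⟨i2, s2, s2', h1, ⟨h2, h2'⟩ | ⟨h2, h2'⟩, h3⟩ |
      ⟨j2, p2, h1, h2, h3⟩ |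
      ⟨j2, p2, i2, s2, h1, h2, h3, h4, h5, ⟨-, h6, h7⟩ | ⟨-, h6, h7⟩⟩
    iterate 4 · first | (exfalso; omega) | (left; omega) | (right; left; omega) | (right; right; left; omega) | (right; right; right; omega)
    iterate 2
      · rcases h3 with h3 | h3 | h3 | h3 | h3 | h3 | h3 | h3 <;>
          (first | (exfalso; omega) | (left; omega) | (right; left; omega) | (right; right; left; omega) | (right; right; right; omega))
    · rcases h3 with h3 | h3 | h3 | h3 <;> (first | (exfalso; omega) | (left; omega) | (right; left; omega) | (right; right; left; omega) | (right; right; right; omega))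
    · first | (exfalso; omega) | (left; omega) | (right; left; omega) | (right; right; left; omega) | (right; right; right; omega)
    · first | (exfalso; omega) | (left; omega) | (right; left; omega) | (right; right; left; omega) | (right; right; right; omega)

theorem deg_restC (hb : Bounded3 φ) (hM : M = (sp φ).length) {x : ℕ} (hx : 3 + 40 * M ≤ x) :
    ∃ l : List ℕ, l.length ≤ 7 ∧ ∀ y, Nb φ (x) y → y ∈ l := by
  refine ⟨[1 + 25 * M,
    2 + 40 * M], by simp, ?_⟩
  intro y hy
  simp only [List.mem_cons, List.not_mem_nil, or_false]
  rcases hy with h | h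
  · rcases nf hb hM h with (h | h | h | h) | ⟨i2, s2, s2', h1, ⟨h2, h2'⟩ | ⟨h2, h2'⟩, h3⟩ |
      ⟨j2, p2, h1, h2, h3⟩ |
      ⟨j2, p2, i2, s2, h1, h2, h3, h4, h5, ⟨-, h6, h7⟩ | ⟨-, h6, h7⟩⟩
    iterate 4 · first | (exfalso; omega) | (left; omega) | (right; omega)
    iterate 2
      · rcases h3 with h3 | h3 | h3 | h3 | h3 | h3 | h3 | h3 <;>
          (first | (exfalso; omega) | (left; omega) | (right; omega))
    · rcases h3 with h3 | h3 | h3 | h3 <;> (first | (exfalso; omega) | (left; omega) | (right; omega))
    · first | (exfalso; omega) | (left; omega) | (right; omega)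
    · first | (exfalso; omega) | (left; omega) | (right; omega)
  · rcases nf hb hM h with (h | h | h | h) | ⟨i2, s2, s2', h1, ⟨h2, h2'⟩ | ⟨h2, h2'⟩, h3⟩ |
      ⟨j2, p2, h1, h2, h3⟩ |
      ⟨j2, p2, i2, s2, h1, h2, h3, h4, h5, ⟨-, h6, h7⟩ | ⟨-, h6, h7⟩⟩
    iterate 4 · first | (exfalso; omega) | (left; omega) | (right; omega)
    iterate 2
      · rcases h3 with h3 | h3 | h3 | h3 | h3 | h3 | h3 | h3 <;>
          (first | (exfalso; omega) | (left; omega) | (right; omega))
    · rcases h3 with h3 | h3 | h3 | h3 <;> (first | (exfalso; omega) | (left; omega) | (right; omega))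
    · first | (exfalso; omega) | (left; omega) | (right; omega)
    · first | (exfalso; omega) | (left; omega) | (right; omega)

end Pool.Agent.Y403.CH
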