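import Pool.Agent.Y403.CH.DegV
import Pool.Agent.Y403.CH.DegC

/-!
# All degrees are at most seven
-/

set_option autoImplicit false

namespace Pool.Agent.Y403.CH

open Pool.Agent.NPC Pool.Agent.H673R2 Pool.Agent.W982.Hole

variable {φ : F3} {M : ℕ}

theorem deg_all (hb : Bounded3 φ) (x : ℕ) :
    ∃ l : List ℕ, l.length ≤ 7 ∧ ∀ y, Nb φ x y → y ∈ l := by
  obtain ⟨M, hM⟩ : ∃ M, M = (sp φ).length := ⟨_, rfl⟩
  by_cases c0 : x = 0
  · rw [c0]; exact deg_restA hb hM
  by_cases c0' : x = 2 + 40 * M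
  · rw [c0']; exact deg_restB hb hM
  by_cases c0'' : 3 + 40 * M ≤ x
  · exact deg_restC hb hM c0''
  by_cases c1 : x < 1 + 15 * M
  · obtain ⟨i, r, hx, hr⟩ : ∃ i r, x = 1 + 5 * i + r ∧ r < 5 :=
      ⟨(x - 1) / 5, (x - 1) % 5, by omega, by omega⟩
    have hi : i < 3 * M := by omega
    subst hx
    interval_cases r
    · exact deg_var0f hb hM hi rfl rfl
    · exact deg_var1f hb hM hi rfl rfl
    · exact deg_var2f hb hM hi rfl rfl
    · exact deg_var3f hb hM hi rfl rfl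
    · exact deg_var4f hb hM hi rfl rfl
  by_cases c2 : 2 + 25 * M ≤ x
  · obtain ⟨i, r, hx, hr⟩ : ∃ i r, x = 2 + 25 * M + 5 * i + r ∧ r < 5 :=
      ⟨(x - (2 + 25 * M)) / 5, (x - (2 + 25 * M)) % 5, by omega, by omega⟩
    have hi : i < 3 * M := by omega
    subst hx
    interval_cases r
    · exact deg_var0t hb hM hi rfl rfl
    · exact deg_var1t hb hM hi rfl rfl
    · exact deg_var2t hb hM hi rfl rfl
    · exact deg_var3t hb hM hi rfl rfl
    · exact deg_var4t hb hM hi rfl rfl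
  obtain ⟨J, r, hJ, hr⟩ : ∃ J r, x = 1 + 15 * M + 10 * J + r ∧ r < 10 :=
    ⟨(x - (1 + 15 * M)) / 10, (x - (1 + 15 * M)) % 10, by omega, by omega⟩
  by_cases hr0 : r = 0
  · subst hr0
    rw [hJ]
    exact deg_cl0 hb hM (by omega)
  have hJM : J < M := by omega
  obtain ⟨p, hp, h⟩ : ∃ p, p < 3 ∧ (r = 3 * p + 1 ∨ r = 3 * p + 2 ∨ r = 3 * p + 3) :=
    ⟨(r - 1) / 3, by omega, by omega⟩
  rcases h with h | h | h
  · have e : x = 1 + 15 * M + 10 * J + 3 * p + 1 := by omega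
    rw [e]
    exact deg_cl1 hb hM hJM hp
  · have e : x = 1 + 15 * M + 10 * J + 3 * p + 2 := by omega
    rw [e]
    exact deg_cl2 hb hM hJM hp
  · have e : x = 1 + 15 * M + 10 * J + 3 * p + 3 := by omega
    rw [e]
    exact deg_cl3 hb hM hJM hp

/-- All degrees of the graph are at most seven. -/
theorem degree_le (hb : Bounded3 φ) (x : Fin (inst (sp φ)).1.1) :
    ((graphOf (inst (sp φ))).neighborSet x).ncard ≤ 7 := by
  classical
  obtain ⟨l, hl, h⟩ := deg_all hb (x : ℕ)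
  rw [← Set.ncard_image_of_injective _ Fin.val_injective]
  have hsub : Fin.val '' ((graphOf (inst (sp φ))).neighborSet x) ⊆ (l.toFinset : Set ℕ) := by
    rintro _ ⟨y, hy, rfl⟩
    rw [Finset.mem_coe, List.mem_toFinset]
    apply h
    have h1 : (graphOf (inst (sp φ))).Adj x y := hy
    rw [adj_inst, ng_adj] at h1
    exact h1.2
  refine (Set.ncard_le_ncard hsub (Finset.finite_toSet _)).trans ?_
  rw [Set.ncard_coe_finset]
  exact (List.toFinset_card_le l).trans hl

end Pool.Agent.Y403.CH
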