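import Pool.Agent.Y403.CH.Deg

/-!
# All degrees are at most seven
-/

set_option autoImplicit false
set_option linter.all false

namespace Pool.Agent.Y403.CH

open Pool.Agent.NPC Pool.Agent.H673R2 Pool.Agent.W982.Hole

variable {φ : F3} {M : ℕ}

theorem deg_var0f (hb : Bounded3 φ) (hM : M = (sp φ).length) {i s s' : ℕ} (hi : i < 3 * M)
    (hs : s = 1 + 5 * i) (hs' : s' = 2 + 25 * M + 5 * i) :
    ∃ l : List ℕ, l.length ≤ 7 ∧ ∀ y, Nb φ s y → y ∈ l := by
  refine ⟨[s - 1,
    s - 4,
    s + 1,
    s + 2,
    0], by simp, ?_⟩
  intro y hy
  simp only [List.mem_cons, List.not_mem_nil, or_false]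
  rcases hy with h | h
  · rcases nf hb hM h with (h | h | h | h) | ⟨i2, s2, s2', h1, ⟨h2, h2'⟩ | ⟨h2, h2'⟩, h3⟩ |
      ⟨j2, p2, h1, h2, h3⟩ |
      ⟨j2, p2, i2, s2, h1, h2, h3, h4, h5, ⟨-, h6, h7⟩ | ⟨-, h6, h7⟩⟩
    iterate 4 · first | (exfalso; omega) | (left; omega) | (right; left; omega) | (right; right; left; omega) | (right; right; right; left; omega) | (right; right; right; right; omega)
    iterate 2
      · rcases h3 with h3 | h3 | h3 | h3 | h3 | h3 | h3 | h3 <;>
          (first | (exfalso; omega) | (left; omega) | (right; left; omega) | (right; right; left; omega) | (right; right; right; left; omega) | (right; right; right; right; omega))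
    · rcases h3 with h3 | h3 | h3 | h3 <;> (first | (exfalso; omega) | (left; omega) | (right; left; omega) | (right; right; left; omega) | (right; right; right; left; omega) | (right; right; right; right; omega))
    · first | (exfalso; omega) | (left; omega) | (right; left; omega) | (right; right; left; omega) | (right; right; right; left; omega) | (right; right; right; right; omega)
    · first | (exfalso; omega) | (left; omega) | (right; left; omega) | (right; right; left; omega) | (right; right; right; left; omega) | (right; right; right; right; omega)
  · rcases nf hb hM h with (h | h | h | h) | ⟨i2, s2, s2', h1, ⟨h2, h2'⟩ | ⟨h2, h2'⟩, h3⟩ |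
      ⟨j2, p2, h1, h2, h3⟩ |
      ⟨j2, p2, i2, s2, h1, h2, h3, h4, h5, ⟨-, h6, h7⟩ | ⟨-, h6, h7⟩⟩
    iterate 4 · first | (exfalso; omega) | (left; omega) | (right; left; omega) | (right; right; left; omega) | (right; right; right; left; omega) | (right; right; right; right; omega)
    iterate 2
      · rcases h3 with h3 | h3 | h3 | h3 | h3 | h3 | h3 | h3 <;>
          (first | (exfalso; omega) | (left; omega) | (right; left; omega) | (right; right; left; omega) | (right; right; right; left; omega) | (right; right; right; right; omega))
    · rcases h3 with h3 | h3 | h3 | h3 <;> (first | (exfalso; omega) | (left; omega) | (right; left; omega) | (right; right; left; omega) | (right; right; right; left; omega) | (right; right; right; right; omega))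
    · first | (exfalso; omega) | (left; omega) | (right; left; omega) | (right; right; left; omega) | (right; right; right; left; omega) | (right; right; right; right; omega)
    · first | (exfalso; omega) | (left; omega) | (right; left; omega) | (right; right; left; omega) | (right; right; right; left; omega) | (right; right; right; right; omega)

theorem deg_var0t (hb : Bounded3 φ) (hM : M = (sp φ).length) {i s s' : ℕ} (hi : i < 3 * M)
    (hs : s = 2 + 25 * M + 5 * i) (hs' : s' = 1 + 5 * i) :
    ∃ l : List ℕ, l.length ≤ 7 ∧ ∀ y, Nb φ s y → y ∈ l := by
  refine ⟨[s - 1,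
    s - 4,
    s + 1,
    s + 2,
    0], by simp, ?_⟩
  intro y hy
  simp only [List.mem_cons, List.not_mem_nil, or_false]
  rcases hy with h | h
  · rcases nf hb hM h with (h | h | h | h) | ⟨i2, s2, s2', h1, ⟨h2, h2'⟩ | ⟨h2, h2'⟩, h3⟩ |
      ⟨j2, p2, h1, h2, h3⟩ |
      ⟨j2, p2, i2, s2, h1, h2, h3, h4, h5, ⟨-, h6, h7⟩ | ⟨-, h6, h7⟩⟩
    iterate 4 · first | (exfalso; omega) | (left; omega) | (right; left; omega) | (right; right; left; omega) | (right; right; right; left; omega) | (right; right; right; right; omega)
    iterate 2
      · rcases h3 with h3 | h3 | h3 | h3 | h3 | h3 | h3 | h3 <;>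
          (first | (exfalso; omega) | (left; omega) | (right; left; omega) | (right; right; left; omega) | (right; right; right; left; omega) | (right; right; right; right; omega))
    · rcases h3 with h3 | h3 | h3 | h3 <;> (first | (exfalso; omega) | (left; omega) | (right; left; omega) | (right; right; left; omega) | (right; right; right; left; omega) | (right; right; right; right; omega))
    · first | (exfalso; omega) | (left; omega) | (right; left; omega) | (right; right; left; omega) | (right; right; right; left; omega) | (right; right; right; right; omega)
    · first | (exfalso; omega) | (left; omega) | (right; left; omega) | (right; right; left; omega) | (right; right; right; left; omega) | (right; right; right; right; omega)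
  · rcases nf hb hM h with (h | h | h | h) | ⟨i2, s2, s2', h1, ⟨h2, h2'⟩ | ⟨h2, h2'⟩, h3⟩ |
      ⟨j2, p2, h1, h2, h3⟩ |
      ⟨j2, p2, i2, s2, h1, h2, h3, h4, h5, ⟨-, h6, h7⟩ | ⟨-, h6, h7⟩⟩
    iterate 4 · first | (exfalso; omega) | (left; omega) | (right; left; omega) | (right; right; left; omega) | (right; right; right; left; omega) | (right; right; right; right; omega)
    iterate 2
      · rcases h3 with h3 | h3 | h3 | h3 | h3 | h3 | h3 | h3 <;>
          (first | (exfalso; omega) | (left; omega) | (right; left; omega) | (right; right; left; omega) | (right; right; right; left; omega) | (right; right; right; right; omega))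
    · rcases h3 with h3 | h3 | h3 | h3 <;> (first | (exfalso; omega) | (left; omega) | (right; left; omega) | (right; right; left; omega) | (right; right; right; left; omega) | (right; right; right; right; omega))
    · first | (exfalso; omega) | (left; omega) | (right; left; omega) | (right; right; left; omega) | (right; right; right; left; omega) | (right; right; right; right; omega)
    · first | (exfalso; omega) | (left; omega) | (right; left; omega) | (right; right; left; omega) | (right; right; right; left; omega) | (right; right; right; right; omega)

theorem deg_var1f (hb : Bounded3 φ) (hM : M = (sp φ).length) {i s s' : ℕ} (hi : i < 3 * M)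
    (hs : s = 1 + 5 * i) (hs' : s' = 2 + 25 * M + 5 * i) :
    ∃ l : List ℕ, l.length ≤ 7 ∧ ∀ y, Nb φ (s + 1) y → y ∈ l := by
  refine ⟨[s,
    s + 3,
    s + 5,
    s' + 3,
    1 + 15 * M + 10 * ((i % N φ) / 3) + 3 * ((i % N φ) % 3) + 2,
    1 + 15 * M + 10 * (φ.length + i) + 2], by simp, ?_⟩
  intro y hy
  simp only [List.mem_cons, List.not_mem_nil, or_false]
  rcases hy with h | h
  · rcases nf hb hM h with (h | h | h | h) | ⟨i2, s2, s2', h1, ⟨h2, h2'⟩ | ⟨h2, h2'⟩, h3⟩ |
      ⟨j2, p2, h1, h2, h3⟩ |
      ⟨j2, p2, i2, s2, h1, h2, h3, h4, h5, ⟨-, h6, h7⟩ | ⟨-, h6, h7⟩⟩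
    iterate 4 · first | (exfalso; omega) | (left; omega) | (right; left; omega) | (right; right; left; omega) | (right; right; right; left; omega) | (right; right; right; right; left; omega) | (right; right; right; right; right; omega)
    iterate 2
      · rcases h3 with h3 | h3 | h3 | h3 | h3 | h3 | h3 | h3 <;>
          (first | (exfalso; omega) | (left; omega) | (right; left; omega) | (right; right; left; omega) | (right; right; right; left; omega) | (right; right; right; right; left; omega) | (right; right; right; right; right; omega))
    · rcases h3 with h3 | h3 | h3 | h3 <;> (first | (exfalso; omega) | (left; omega) | (right; left; omega) | (right; right; left; omega) | (right; right; right; left; omega) | (right; right; right; right; left; omega) | (right; right; right; right; right; omega))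
    · first | (exfalso; omega) | (left; omega) | (right; left; omega) | (right; right; left; omega) | (right; right; right; left; omega) | (right; right; right; right; left; omega) | (right; right; right; right; right; omega)
    · first | (exfalso; omega) | (left; omega) | (right; left; omega) | (right; right; left; omega) | (right; right; right; left; omega) | (right; right; right; right; left; omega) | (right; right; right; right; right; omega)
  · rcases nf hb hM h with (h | h | h | h) | ⟨i2, s2, s2', h1, ⟨h2, h2'⟩ | ⟨h2, h2'⟩, h3⟩ |
      ⟨j2, p2, h1, h2, h3⟩ |
      ⟨j2, p2, i2, s2, h1, h2, h3, h4, h5, ⟨-, h6, h7⟩ | ⟨ho, h6, h7⟩⟩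
    iterate 4 · first | (exfalso; omega) | (left; omega) | (right; left; omega) | (right; right; left; omega) | (right; right; right; left; omega) | (right; right; right; right; left; omega) | (right; right; right; right; right; omega)
    iterate 2
      · rcases h3 with h3 | h3 | h3 | h3 | h3 | h3 | h3 | h3 <;>
          (first | (exfalso; omega) | (left; omega) | (right; left; omega) | (right; right; left; omega) | (right; right; right; left; omega) | (right; right; right; right; left; omega) | (right; right; right; right; right; omega))
    · rcases h3 with h3 | h3 | h3 | h3 <;> (first | (exfalso; omega) | (left; omega) | (right; left; omega) | (right; right; left; omega) | (right; right; right; left; omega) | (right; right; right; right; left; omega) | (right; right; right; right; right; omega))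
    · first | (exfalso; omega) | (left; omega) | (right; left; omega) | (right; right; left; omega) | (right; right; right; left; omega) | (right; right; right; right; left; omega) | (right; right; right; right; right; omega)
    · obtain rfl : i2 = i := by omega
      rcases ho with ho | ⟨-, ho1, ho2⟩ | ⟨ho, -⟩
      · right; right; right; right; left
        generalize i2 % N φ = w at *
        omega
      · right; right; right; right; right
        omega
      · exact absurd ho (by decide)

theorem deg_var1t (hb : Bounded3 φ) (hM : M = (sp φ).length) {i s s' : ℕ} (hi : i < 3 * M)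
    (hs : s = 2 + 25 * M + 5 * i) (hs' : s' = 1 + 5 * i) :
    ∃ l : List ℕ, l.length ≤ 7 ∧ ∀ y, Nb φ (s + 1) y → y ∈ l := by
  refine ⟨[s,
    s + 3,
    s + 5,
    s' + 3,
    1 + 15 * M + 10 * ((i % N φ) / 3) + 3 * ((i % N φ) % 3) + 2,
    1 + 15 * M + 10 * (φ.length + i) + 2], by simp, ?_⟩
  intro y hy
  simp only [List.mem_cons, List.not_mem_nil, or_false]
  rcases hy with h | h
  · rcases nf hb hM h with (h | h | h | h) | ⟨i2, s2, s2', h1, ⟨h2, h2'⟩ | ⟨h2, h2'⟩, h3⟩ |
      ⟨j2, p2, h1, h2, h3⟩ |
      ⟨j2, p2, i2, s2, h1, h2, h3, h4, h5, ⟨-, h6, h7⟩ | ⟨-, h6, h7⟩⟩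
    iterate 4 · first | (exfalso; omega) | (left; omega) | (right; left; omega) | (right; right; left; omega) | (right; right; right; left; omega) | (right; right; right; right; left; omega) | (right; right; right; right; right; omega)
    iterate 2
      · rcases h3 with h3 | h3 | h3 | h3 | h3 | h3 | h3 | h3 <;>
          (first | (exfalso; omega) | (left; omega) | (right; left; omega) | (right; right; left; omega) | (right; right; right; left; omega) | (right; right; right; right; left; omega) | (right; right; right; right; right; omega))
    · rcases h3 with h3 | h3 | h3 | h3 <;> (first | (exfalso; omega) | (left; omega) | (right; left; omega) | (right; right; left; omega) | (right; right; right; left; omega) | (right; right; right; right; left; omega) | (right; right; right; right; right; omega))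
    · first | (exfalso; omega) | (left; omega) | (right; left; omega) | (right; right; left; omega) | (right; right; right; left; omega) | (right; right; right; right; left; omega) | (right; right; right; right; right; omega)
    · first | (exfalso; omega) | (left; omega) | (right; left; omega) | (right; right; left; omega) | (right; right; right; left; omega) | (right; right; right; right; left; omega) | (right; right; right; right; right; omega)
  · rcases nf hb hM h with (h | h | h | h) | ⟨i2, s2, s2', h1, ⟨h2, h2'⟩ | ⟨h2, h2'⟩, h3⟩ |
      ⟨j2, p2, h1, h2, h3⟩ |
      ⟨j2, p2, i2, s2, h1, h2, h3, h4, h5, ⟨-, h6, h7⟩ | ⟨ho, h6, h7⟩⟩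
    iterate 4 · first | (exfalso; omega) | (left; omega) | (right; left; omega) | (right; right; left; omega) | (right; right; right; left; omega) | (right; right; right; right; left; omega) | (right; right; right; right; right; omega)
    iterate 2
      · rcases h3 with h3 | h3 | h3 | h3 | h3 | h3 | h3 | h3 <;>
          (first | (exfalso; omega) | (left; omega) | (right; left; omega) | (right; right; left; omega) | (right; right; right; left; omega) | (right; right; right; right; left; omega) | (right; right; right; right; right; omega))
    · rcases h3 with h3 | h3 | h3 | h3 <;> (first | (exfalso; omega) | (left; omega) | (right; left; omega) | (right; right; left; omega) | (right; right; right; left; omega) | (right; right; right; right; left; omega) | (right; right; right; right; right; omega))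
    · first | (exfalso; omega) | (left; omega) | (right; left; omega) | (right; right; left; omega) | (right; right; right; left; omega) | (right; right; right; right; left; omega) | (right; right; right; right; right; omega)
    · obtain rfl : i2 = i := by omega
      rcases ho with ho | ⟨-, ho1, ho2⟩ | ⟨ho, -⟩
      · right; right; right; right; left
        generalize i2 % N φ = w at *
        omega
      · right; right; right; right; right
        omega
      · exact absurd ho (by decide)

theorem deg_var2f (hb : Bounded3 φ) (hM : M = (sp φ).length) {i s s' : ℕ} (hi : i < 3 * M)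
    (hs : s = 1 + 5 * i) (hs' : s' = 2 + 25 * M + 5 * i) :
    ∃ l : List ℕ, l.length ≤ 7 ∧ ∀ y, Nb φ (s + 2) y → y ∈ l := by
  refine ⟨[s,
    s + 3], by simp, ?_⟩
  intro y hy
  simp only [List.mem_cons, List.not_mem_nil, or_false]
  rcases hy with h | h
  · rcases nf hb hM h with (h | h | h | h) | ⟨i2, s2, s2', h1, ⟨h2, h2'⟩ | ⟨h2, h2'⟩, h3⟩ |
      ⟨j2, p2, h1, h2, h3⟩ |
      ⟨j2, p2, i2, s2, h1, h2, h3, h4, h5, ⟨-, h6, h7⟩ | ⟨-, h6, h7⟩⟩
    iterate 4 · first | (exfalso; omega) | (left; omega) | (right; omega)
    iterate 2
      · rcases h3 with h3 | h3 | h3 | h3 | h3 | h3 | h3 | h3 <;>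
          (first | (exfalso; omega) | (left; omega) | (right; omega))
    · rcases h3 with h3 | h3 | h3 | h3 <;> (first | (exfalso; omega) | (left; omega) | (right; omega))
    · first | (exfalso; omega) | (left; omega) | (right; omega)
    · first | (exfalso; omega) | (left; omega) | (right; omega)
  · rcases nf hb hM h with (h | h | h | h) | ⟨i2, s2, s2', h1, ⟨h2, h2'⟩ | ⟨h2, h2'⟩, h3⟩ |
      ⟨j2, p2, h1, h2, h3⟩ |
      ⟨j2, p2, i2, s2, h1, h2, h3, h4, h5, ⟨-, h6, h7⟩ | ⟨-, h6, h7⟩⟩
    iterate 4 · first | (exfalso; omega) | (left; omega) | (right; omega)
    iterate 2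
      · rcases h3 with h3 | h3 | h3 | h3 | h3 | h3 | h3 | h3 <;>
          (first | (exfalso; omega) | (left; omega) | (right; omega))
    · rcases h3 with h3 | h3 | h3 | h3 <;> (first | (exfalso; omega) | (left; omega) | (right; omega))
    · first | (exfalso; omega) | (left; omega) | (right; omega)
    · first | (exfalso; omega) | (left; omega) | (right; omega)

theorem deg_var2t (hb : Bounded3 φ) (hM : M = (sp φ).length) {i s s' : ℕ} (hi : i < 3 * M)
    (hs : s = 2 + 25 * M + 5 * i) (hs' : s' = 1 + 5 * i) :
    ∃ l : List ℕ, l.length ≤ 7 ∧ ∀ y, Nb φ (s + 2) y → y ∈ l := by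
  refine ⟨[s,
    s + 3], by simp, ?_⟩
  intro y hy
  simp only [List.mem_cons, List.not_mem_nil, or_false]
  rcases hy with h | h
  · rcases nf hb hM h with (h | h | h | h) | ⟨i2, s2, s2', h1, ⟨h2, h2'⟩ | ⟨h2, h2'⟩, h3⟩ |
      ⟨j2, p2, h1, h2, h3⟩ |
      ⟨j2, p2, i2, s2, h1, h2, h3, h4, h5, ⟨-, h6, h7⟩ | ⟨-, h6, h7⟩⟩
    iterate 4 · first | (exfalso; omega) | (left; omega) | (right; omega)
    iterate 2
      · rcases h3 with h3 | h3 | h3 | h3 | h3 | h3 | h3 | h3 <;>
          (first | (exfalso; omega) | (left; omega) | (right; omega))
    · rcases h3 with h3 | h3 | h3 | h3 <;> (first | (exfalso; omega) | (left; omega) | (right; omega))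
    · first | (exfalso; omega) | (left; omega) | (right; omega)
    · first | (exfalso; omega) | (left; omega) | (right; omega)
  · rcases nf hb hM h with (h | h | h | h) | ⟨i2, s2, s2', h1, ⟨h2, h2'⟩ | ⟨h2, h2'⟩, h3⟩ |
      ⟨j2, p2, h1, h2, h3⟩ |
      ⟨j2, p2, i2, s2, h1, h2, h3, h4, h5, ⟨-, h6, h7⟩ | ⟨-, h6, h7⟩⟩
    iterate 4 · first | (exfalso; omega) | (left; omega) | (right; omega)
    iterate 2
      · rcases h3 with h3 | h3 | h3 | h3 | h3 | h3 | h3 | h3 <;>
          (first | (exfalso; omega) | (left; omega) | (right; omega))
    · rcases h3 with h3 | h3 | h3 | h3 <;> (first | (exfalso; omega) | (left; omega) | (right; omega))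
    · first | (exfalso; omega) | (left; omega) | (right; omega)
    · first | (exfalso; omega) | (left; omega) | (right; omega)

theorem deg_var3f (hb : Bounded3 φ) (hM : M = (sp φ).length) {i s s' : ℕ} (hi : i < 3 * M)
    (hs : s = 1 + 5 * i) (hs' : s' = 2 + 25 * M + 5 * i) :
    ∃ l : List ℕ, l.length ≤ 7 ∧ ∀ y, Nb φ (s + 3) y → y ∈ l := by
  refine ⟨[s + 2,
    s + 4,
    s + 1,
    s' + 1,
    1 + 15 * M + 10 * ((i % N φ) / 3) + 3 * ((i % N φ) % 3) + 1,
    1 + 15 * M + 10 * (φ.length + prev φ i) + 4,
    1 + 15 * M + 10 * (φ.length + prev φ i) + 7], by simp, ?_⟩
  intro y hy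
  simp only [List.mem_cons, List.not_mem_nil, or_false]
  rcases hy with h | h
  · rcases nf hb hM h with (h | h | h | h) | ⟨i2, s2, s2', h1, ⟨h2, h2'⟩ | ⟨h2, h2'⟩, h3⟩ |
      ⟨j2, p2, h1, h2, h3⟩ |
      ⟨j2, p2, i2, s2, h1, h2, h3, h4, h5, ⟨-, h6, h7⟩ | ⟨-, h6, h7⟩⟩
    iterate 4 · first | (exfalso; omega) | (left; omega) | (right; left; omega) | (right; right; left; omega) | (right; right; right; left; omega) | (right; right; right; right; left; omega) | (right; right; right; right; right; left; omega) | (right; right; right; right; right; right; omega)
    iterate 2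
      · rcases h3 with h3 | h3 | h3 | h3 | h3 | h3 | h3 | h3 <;>
          (first | (exfalso; omega) | (left; omega) | (right; left; omega) | (right; right; left; omega) | (right; right; right; left; omega) | (right; right; right; right; left; omega) | (right; right; right; right; right; left; omega) | (right; right; right; right; right; right; omega))
    · rcases h3 with h3 | h3 | h3 | h3 <;> (first | (exfalso; omega) | (left; omega) | (right; left; omega) | (right; right; left; omega) | (right; right; right; left; omega) | (right; right; right; right; left; omega) | (right; right; right; right; right; left; omega) | (right; right; right; right; right; right; omega))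
    · first | (exfalso; omega) | (left; omega) | (right; left; omega) | (right; right; left; omega) | (right; right; right; left; omega) | (right; right; right; right; left; omega) | (right; right; right; right; right; left; omega) | (right; right; right; right; right; right; omega)
    · first | (exfalso; omega) | (left; omega) | (right; left; omega) | (right; right; left; omega) | (right; right; right; left; omega) | (right; right; right; right; left; omega) | (right; right; right; right; right; left; omega) | (right; right; right; right; right; right; omega)
  · rcases nf hb hM h with (h | h | h | h) | ⟨i2, s2, s2', h1, ⟨h2, h2'⟩ | ⟨h2, h2'⟩, h3⟩ |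
      ⟨j2, p2, h1, h2, h3⟩ |
      ⟨j2, p2, i2, s2, h1, h2, h3, h4, h5, ⟨ho, h6, h7⟩ | ⟨-, h6, h7⟩⟩
    iterate 4 · first | (exfalso; omega) | (left; omega) | (right; left; omega) | (right; right; left; omega) | (right; right; right; left; omega) | (right; right; right; right; left; omega) | (right; right; right; right; right; left; omega) | (right; right; right; right; right; right; omega)
    iterate 2
      · rcases h3 with h3 | h3 | h3 | h3 | h3 | h3 | h3 | h3 <;>
          (first | (exfalso; omega) | (left; omega) | (right; left; omega) | (right; right; left; omega) | (right; right; right; left; omega) | (right; right; right; right; left; omega) | (right; right; right; right; right; left; omega) | (right; right; right; right; right; right; omega))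
    · rcases h3 with h3 | h3 | h3 | h3 <;> (first | (exfalso; omega) | (left; omega) | (right; left; omega) | (right; right; left; omega) | (right; right; right; left; omega) | (right; right; right; right; left; omega) | (right; right; right; right; right; left; omega) | (right; right; right; right; right; right; omega))
    · obtain rfl : i2 = i := by omega
      rcases ho with ho | ⟨ho, -⟩ | ⟨-, ho1 | ho1, ho2⟩
      · right; right; right; right; left
        generalize i2 % N φ = w at *
        omega
      · exact absurd ho (by decide)
      · right; right; right; right; right; left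
        generalize prev φ i2 = pr at *
        omega
      · right; right; right; right; right; right
        generalize prev φ i2 = pr at *
        omega
    · first | (exfalso; omega) | (left; omega) | (right; left; omega) | (right; right; left; omega) | (right; right; right; left; omega) | (right; right; right; right; left; omega) | (right; right; right; right; right; left; omega) | (right; right; right; right; right; right; omega)

theorem deg_var3t (hb : Bounded3 φ) (hM : M = (sp φ).length) {i s s' : ℕ} (hi : i < 3 * M)
    (hs : s = 2 + 25 * M + 5 * i) (hs' : s' = 1 + 5 * i) :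
    ∃ l : List ℕ, l.length ≤ 7 ∧ ∀ y, Nb φ (s + 3) y → y ∈ l := by
  refine ⟨[s + 2,
    s + 4,
    s + 1,
    s' + 1,
    1 + 15 * M + 10 * ((i % N φ) / 3) + 3 * ((i % N φ) % 3) + 1,
    1 + 15 * M + 10 * (φ.length + prev φ i) + 4,
    1 + 15 * M + 10 * (φ.length + prev φ i) + 7], by simp, ?_⟩
  intro y hy
  simp only [List.mem_cons, List.not_mem_nil, or_false]
  rcases hy with h | h
  · rcases nf hb hM h with (h | h | h | h) | ⟨i2, s2, s2', h1, ⟨h2, h2'⟩ | ⟨h2, h2'⟩, h3⟩ |
      ⟨j2, p2, h1, h2, h3⟩ |
      ⟨j2, p2, i2, s2, h1, h2, h3, h4, h5, ⟨-, h6, h7⟩ | ⟨-, h6, h7⟩⟩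
    iterate 4 · first | (exfalso; omega) | (left; omega) | (right; left; omega) | (right; right; left; omega) | (right; right; right; left; omega) | (right; right; right; right; left; omega) | (right; right; right; right; right; left; omega) | (right; right; right; right; right; right; omega)
    iterate 2
      · rcases h3 with h3 | h3 | h3 | h3 | h3 | h3 | h3 | h3 <;>
          (first | (exfalso; omega) | (left; omega) | (right; left; omega) | (right; right; left; omega) | (right; right; right; left; omega) | (right; right; right; right; left; omega) | (right; right; right; right; right; left; omega) | (right; right; right; right; right; right; omega))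
    · rcases h3 with h3 | h3 | h3 | h3 <;> (first | (exfalso; omega) | (left; omega) | (right; left; omega) | (right; right; left; omega) | (right; right; right; left; omega) | (right; right; right; right; left; omega) | (right; right; right; right; right; left; omega) | (right; right; right; right; right; right; omega))
    · first | (exfalso; omega) | (left; omega) | (right; left; omega) | (right; right; left; omega) | (right; right; right; left; omega) | (right; right; right; right; left; omega) | (right; right; right; right; right; left; omega) | (right; right; right; right; right; right; omega)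
    · first | (exfalso; omega) | (left; omega) | (right; left; omega) | (right; right; left; omega) | (right; right; right; left; omega) | (right; right; right; right; left; omega) | (right; right; right; right; right; left; omega) | (right; right; right; right; right; right; omega)
  · rcases nf hb hM h with (h | h | h | h) | ⟨i2, s2, s2', h1, ⟨h2, h2'⟩ | ⟨h2, h2'⟩, h3⟩ |
      ⟨j2, p2, h1, h2, h3⟩ |
      ⟨j2, p2, i2, s2, h1, h2, h3, h4, h5, ⟨ho, h6, h7⟩ | ⟨-, h6, h7⟩⟩
    iterate 4 · first | (exfalso; omega) | (left; omega) | (right; left; omega) | (right; right; left; omega) | (right; right; right; left; omega) | (right; right; right; right; left; omega) | (right; right; right; right; right; left; omega) | (right; right; right; right; right; right; omega)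
    iterate 2
      · rcases h3 with h3 | h3 | h3 | h3 | h3 | h3 | h3 | h3 <;>
          (first | (exfalso; omega) | (left; omega) | (right; left; omega) | (right; right; left; omega) | (right; right; right; left; omega) | (right; right; right; right; left; omega) | (right; right; right; right; right; left; omega) | (right; right; right; right; right; right; omega))
    · rcases h3 with h3 | h3 | h3 | h3 <;> (first | (exfalso; omega) | (left; omega) | (right; left; omega) | (right; right; left; omega) | (right; right; right; left; omega) | (right; right; right; right; left; omega) | (right; right; right; right; right; left; omega) | (right; right; right; right; right; right; omega))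
    · obtain rfl : i2 = i := by omega
      rcases ho with ho | ⟨ho, -⟩ | ⟨-, ho1 | ho1, ho2⟩
      · right; right; right; right; left
        generalize i2 % N φ = w at *
        omega
      · exact absurd ho (by decide)
      · right; right; right; right; right; left
        generalize prev φ i2 = pr at *
        omega
      · right; right; right; right; right; right
        generalize prev φ i2 = pr at *
        omega
    · first | (exfalso; omega) | (left; omega) | (right; left; omega) | (right; right; left; omega) | (right; right; right; left; omega) | (right; right; right; right; left; omega) | (right; right; right; right; right; left; omega) | (right; right; right; right; right; right; omega)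

theorem deg_var4f (hb : Bounded3 φ) (hM : M = (sp φ).length) {i s s' : ℕ} (hi : i < 3 * M)
    (hs : s = 1 + 5 * i) (hs' : s' = 2 + 25 * M + 5 * i) :
    ∃ l : List ℕ, l.length ≤ 7 ∧ ∀ y, Nb φ (s + 4) y → y ∈ l := by
  refine ⟨[s + 3,
    s + 5], by simp, ?_⟩
  intro y hy
  simp only [List.mem_cons, List.not_mem_nil, or_false]
  rcases hy with h | h
  · rcases nf hb hM h with (h | h | h | h) | ⟨i2, s2, s2', h1, ⟨h2, h2'⟩ | ⟨h2, h2'⟩, h3⟩ |
      ⟨j2, p2, h1, h2, h3⟩ |
      ⟨j2, p2, i2, s2, h1, h2, h3, h4, h5, ⟨-, h6, h7⟩ | ⟨-, h6, h7⟩⟩
    iterate 4 · first | (exfalso; omega) | (left; omega) | (right; omega)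
    iterate 2
      · rcases h3 with h3 | h3 | h3 | h3 | h3 | h3 | h3 | h3 <;>
          (first | (exfalso; omega) | (left; omega) | (right; omega))
    · rcases h3 with h3 | h3 | h3 | h3 <;> (first | (exfalso; omega) | (left; omega) | (right; omega))
    · first | (exfalso; omega) | (left; omega) | (right; omega)
    · first | (exfalso; omega) | (left; omega) | (right; omega)
  · rcases nf hb hM h with (h | h | h | h) | ⟨i2, s2, s2', h1, ⟨h2, h2'⟩ | ⟨h2, h2'⟩, h3⟩ |
      ⟨j2, p2, h1, h2, h3⟩ |
      ⟨j2, p2, i2, s2, h1, h2, h3, h4, h5, ⟨-, h6, h7⟩ | ⟨-, h6, h7⟩⟩
    iterate 4 · first | (exfalso; omega) | (left; omega) | (right; omega)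
    iterate 2
      · rcases h3 with h3 | h3 | h3 | h3 | h3 | h3 | h3 | h3 <;>
          (first | (exfalso; omega) | (left; omega) | (right; omega))
    · rcases h3 with h3 | h3 | h3 | h3 <;> (first | (exfalso; omega) | (left; omega) | (right; omega))
    · first | (exfalso; omega) | (left; omega) | (right; omega)
    · first | (exfalso; omega) | (left; omega) | (right; omega)

theorem deg_var4t (hb : Bounded3 φ) (hM : M = (sp φ).length) {i s s' : ℕ} (hi : i < 3 * M)
    (hs : s = 2 + 25 * M + 5 * i) (hs' : s' = 1 + 5 * i) :
    ∃ l : List ℕ, l.length ≤ 7 ∧ ∀ y, Nb φ (s + 4) y → y ∈ l := by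
  refine ⟨[s + 3,
    s + 5], by simp, ?_⟩
  intro y hy
  simp only [List.mem_cons, List.not_mem_nil, or_false]
  rcases hy with h | h
  · rcases nf hb hM h with (h | h | h | h) | ⟨i2, s2, s2', h1, ⟨h2, h2'⟩ | ⟨h2, h2'⟩, h3⟩ |
      ⟨j2, p2, h1, h2, h3⟩ |
      ⟨j2, p2, i2, s2, h1, h2, h3, h4, h5, ⟨-, h6, h7⟩ | ⟨-, h6, h7⟩⟩
    iterate 4 · first | (exfalso; omega) | (left; omega) | (right; omega)
    iterate 2
      · rcases h3 with h3 | h3 | h3 | h3 | h3 | h3 | h3 | h3 <;>
          (first | (exfalso; omega) | (left; omega) | (right; omega))
    · rcases h3 with h3 | h3 | h3 | h3 <;> (first | (exfalso; omega) | (left; omega) | (right; omega))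
    · first | (exfalso; omega) | (left; omega) | (right; omega)
    · first | (exfalso; omega) | (left; omega) | (right; omega)
  · rcases nf hb hM h with (h | h | h | h) | ⟨i2, s2, s2', h1, ⟨h2, h2'⟩ | ⟨h2, h2'⟩, h3⟩ |
      ⟨j2, p2, h1, h2, h3⟩ |
      ⟨j2, p2, i2, s2, h1, h2, h3, h4, h5, ⟨-, h6, h7⟩ | ⟨-, h6, h7⟩⟩
    iterate 4 · first | (exfalso; omega) | (left; omega) | (right; omega)
    iterate 2
      · rcases h3 with h3 | h3 | h3 | h3 | h3 | h3 | h3 | h3 <;>
          (first | (exfalso; omega) | (left; omega) | (right; omega))
    · rcases h3 with h3 | h3 | h3 | h3 <;> (first | (exfalso; omega) | (left; omega) | (right; omega))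
    · first | (exfalso; omega) | (left; omega) | (right; omega)
    · first | (exfalso; omega) | (left; omega) | (right; omega)

end Pool.Agent.Y403.CH
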