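import Pool.Agent.W982.HoleFinal
import Pool.Agent.H671R2.PolyAuto

/-!
# Satisfiability of three literal clauses with few occurrences of every literal

Adapted from `Pool.Agent.Y403.OA.Src` (clauses given by lists).
-/

set_option autoImplicit false

namespace Pool.Agent.Y403.CH

open Pool.Agent.NPC Pool.Agent.NPC.R671 Pool.Agent.H673R2 Pool.Agent.W982.Hole

/-- the number of the copies of a variable -/
def N (φ : F3) : ℕ := 3 * φ.length

/-- a default clause -/
def d0 : Lit ℕ × Lit ℕ × Lit ℕ := ((true, 0), (true, 0), (true, 0))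

/-- the new version of a clause -/
def clA (φ : F3) (t : ℕ) : Lit ℕ × Lit ℕ × Lit ℕ :=
  (((φ.getD t d0).1.1, (φ.getD t d0).1.2 * N φ + 3 * t),
   ((φ.getD t d0).2.1.1, (φ.getD t d0).2.1.2 * N φ + (3 * t + 1)),
   ((φ.getD t d0).2.2.1, (φ.getD t d0).2.2.2 * N φ + (3 * t + 2)))

/-- the implication from a copy of a variable to the next copy -/
def clB (φ : F3) (u : ℕ) : Lit ℕ × Lit ℕ × Lit ℕ :=
  ((false, u), (true, (u / N φ) * N φ + (u % N φ + 1) % N φ),
    (true, (u / N φ) * N φ + (u % N φ + 1) % N φ))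

/-- the clauses of the new formula -/
def cls (φ : F3) (t : ℕ) : Lit ℕ × Lit ℕ × Lit ℕ :=
  if t < φ.length then clA φ t else clB φ (t - φ.length)

/-- the new formula -/
def sp (φ : F3) : F3 :=
  (List.range (φ.length + N φ * N φ)).map (fun t => cls φ t)

theorem sp_length (φ : F3) : (sp φ).length = φ.length + N φ * N φ := by
  simp [sp]

theorem sp_getD {φ : F3} {j : ℕ} (hj : j < (sp φ).length) (d : Lit ℕ × Lit ℕ × Lit ℕ) :
    (sp φ).getD j d = cls φ j := by
  rw [List.getD_eq_getElem _ _ hj]
  simp [sp]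

theorem keyv {φ : F3} {v r : ℕ} (hv : v < 3 * φ.length) (hr : r < 3 * φ.length) :
    v * N φ + r < N φ * N φ ∧ (v * N φ + r) % N φ = r ∧ (v * N φ + r) / N φ = v := by
  have hr' : r < N φ := hr
  refine ⟨?_, ?_, ?_⟩
  · unfold N
    nlinarith
  · rw [Nat.mul_add_mod_self_right, Nat.mod_eq_of_lt hr']
  · rw [Nat.mul_comm, Nat.mul_add_div (by omega), Nat.div_eq_of_lt hr', Nat.add_zero]

theorem getD_mem {φ : F3} {j : ℕ} (hj : j < φ.length) : φ.getD j d0 ∈ φ := by
  rw [List.getD_eq_getElem _ _ hj]
  exact List.getElem_mem hj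

theorem sp_bounded {φ : F3} (hb : Bounded3 φ) : Bounded3 (sp φ) := by
  intro c hc
  have hlen := sp_length φ
  unfold sp at hc
  rw [List.mem_map] at hc
  obtain ⟨t, ht, rfl⟩ := hc
  rw [List.mem_range] at ht
  rw [hlen]
  unfold cls
  split_ifs with h1
  · obtain ⟨b1, b2, b3⟩ := hb _ (getD_mem h1)
    have k1 := (keyv b1 (r := 3 * t) (by omega)).1
    have k2 := (keyv b2 (r := 3 * t + 1) (by omega)).1
    have k3 := (keyv b3 (r := 3 * t + 2) (by omega)).1
    refine ⟨?_, ?_, ?_⟩
    · simp only [clA]; omega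
    · simp only [clA]; omega
    · simp only [clA]; omega
  · have hu : t - φ.length < N φ * N φ := by omega
    have hN : 0 < N φ := by
      rcases Nat.eq_zero_or_pos (N φ) with h0 | h0
      · rw [h0] at hu; omega
      · exact h0
    have h3 : (t - φ.length) / N φ < N φ := Nat.div_lt_of_lt_mul hu
    have h4 : ((t - φ.length) % N φ + 1) % N φ < N φ := Nat.mod_lt _ hN
    have h5 : (t - φ.length) / N φ * N φ + ((t - φ.length) % N φ + 1) % N φ < N φ * N φ := by
      nlinarith
    refine ⟨?_, ?_, ?_⟩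
    · simp only [clB]; omega
    · simp only [clB]; omega
    · simp only [clB]; omega

/-- where a literal of the new formula can be -/
theorem lit_cases {φ : F3} (hb : Bounded3 φ) {j p : ℕ} (hj : j < (sp φ).length) (hp : p < 3) :
    (3 * j + p = (lit (sp φ) j p).2 % N φ) ∨
      ((lit (sp φ) j p).1 = false ∧ p = 0 ∧ j = φ.length + (lit (sp φ) j p).2) ∨
      ((lit (sp φ) j p).1 = true ∧ (p = 1 ∨ p = 2) ∧
        j = φ.length + (((lit (sp φ) j p).2 / N φ) * N φ +
          ((lit (sp φ) j p).2 % N φ + N φ - 1) % N φ)) := by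
  have hlen := sp_length φ
  by_cases h1 : j < φ.length
  · left
    obtain ⟨b1, b2, b3⟩ := hb _ (getD_mem h1)
    have k1 := (keyv b1 (r := 3 * j) (by omega)).2.1
    have k2 := (keyv b2 (r := 3 * j + 1) (by omega)).2.1
    have k3 := (keyv b3 (r := 3 * j + 2) (by omega)).2.1
    have hcl : cls φ j = clA φ j := by unfold cls; rw [if_pos h1]
    have e0 : lit (sp φ) j 0 = (clA φ j).1 := by unfold lit; rw [sp_getD hj, hcl]; rfl
    have e1 : lit (sp φ) j 1 = (clA φ j).2.1 := by unfold lit; rw [sp_getD hj, hcl]; rfl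
    have e2 : lit (sp φ) j 2 = (clA φ j).2.2 := by unfold lit; rw [sp_getD hj, hcl]; rfl
    interval_cases p
    · rw [e0]
      simp only [clA]
      rw [k1]
      omega
    · rw [e1]
      simp only [clA]
      rw [k2]
    · rw [e2]
      simp only [clA]
      rw [k3]
  · right
    have hu : j - φ.length < N φ * N φ := by omega
    have hN : 0 < N φ := by
      rcases Nat.eq_zero_or_pos (N φ) with h0 | h0
      · rw [h0] at hu; omega
      · exact h0
    set u := j - φ.length with hudef
    have hju : j = φ.length + u := by omega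
    have key : u = ((u / N φ) * N φ + (u % N φ + 1) % N φ) / N φ * N φ +
        (((u / N φ) * N φ + (u % N φ + 1) % N φ) % N φ + N φ - 1) % N φ := by
      have h9 : ((u / N φ) * N φ + (u % N φ + 1) % N φ) / N φ = u / N φ := by
        rw [Nat.mul_comm, Nat.mul_add_div hN, Nat.div_eq_of_lt (Nat.mod_lt _ hN), Nat.add_zero]
      have h10 : ((u / N φ) * N φ + (u % N φ + 1) % N φ) % N φ = (u % N φ + 1) % N φ := by
        rw [Nat.mul_add_mod_self_right, Nat.mod_mod]
      rw [h9, h10]
      have h11 : ((u % N φ + 1) % N φ + N φ - 1) % N φ = u % N φ := by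
        have hlt := Nat.mod_lt u hN
        rcases Nat.lt_or_ge (u % N φ + 1) (N φ) with h | h
        · rw [Nat.mod_eq_of_lt h, show u % N φ + 1 + N φ - 1 = u % N φ + N φ by omega,
            Nat.add_mod_right, Nat.mod_mod]
        · have : u % N φ + 1 = N φ := by omega
          rw [this, Nat.mod_self, Nat.zero_add, Nat.mod_eq_of_lt (by omega)]
          omega
      rw [h11, Nat.mul_comm]
      exact (Nat.div_add_mod _ _).symm
    have hcl : cls φ j = clB φ u := by unfold cls; rw [if_neg h1]
    have e0 : lit (sp φ) j 0 = (clB φ u).1 := by unfold lit; rw [sp_getD hj, hcl]; rfl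
    have e1 : lit (sp φ) j 1 = (clB φ u).2.1 := by unfold lit; rw [sp_getD hj, hcl]; rfl
    have e2 : lit (sp φ) j 2 = (clB φ u).2.2 := by unfold lit; rw [sp_getD hj, hcl]; rfl
    interval_cases p
    · left
      rw [e0]
      exact ⟨rfl, rfl, hju⟩
    · right
      rw [e1]
      refine ⟨rfl, Or.inl rfl, ?_⟩
      simp only [clB]
      rw [← key]
      exact hju
    · right
      rw [e2]
      refine ⟨rfl, Or.inr rfl, ?_⟩
      simp only [clB]
      rw [← key]
      exact hju

theorem step {φ : F3} {σ : ℕ → Bool}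
    (h : ∀ c ∈ sp φ, σ c.1.2 = c.1.1 ∨ σ c.2.1.2 = c.2.1.1 ∨ σ c.2.2.2 = c.2.2.1) {v p : ℕ}
    (hv : v < N φ) (hp : p < N φ) (hσ : σ (v * N φ + p) = true) :
    σ (v * N φ + (p + 1) % N φ) = true := by
  have hN : 0 < N φ := by omega
  have hu : v * N φ + p < N φ * N φ := by nlinarith
  have hmem : clB φ (v * N φ + p) ∈ sp φ := by
    unfold sp
    rw [List.mem_map]
    refine ⟨φ.length + (v * N φ + p), ?_, ?_⟩
    · rw [List.mem_range]; omega
    · unfold cls
      rw [if_neg (by omega)]
      congr 1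
      omega
  have h3 := h _ hmem
  have e1 : (v * N φ + p) / N φ = v := by
    rw [Nat.mul_comm, Nat.mul_add_div hN, Nat.div_eq_of_lt hp, Nat.add_zero]
  have e2 : (v * N φ + p) % N φ = p := by
    rw [Nat.mul_add_mod_self_right, Nat.mod_eq_of_lt hp]
  unfold clB at h3
  rw [e1, e2] at h3
  simp only at h3
  rcases h3 with h3 | h3 | h3
  · rw [hσ] at h3
    exact absurd h3 (by decide)
  · exact h3
  · exact h3

theorem allEq {φ : F3} {σ : ℕ → Bool}
    (h : ∀ c ∈ sp φ, σ c.1.2 = c.1.1 ∨ σ c.2.1.2 = c.2.1.1 ∨ σ c.2.2.2 = c.2.2.1) {v p q : ℕ}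
    (hv : v < N φ) (hp : p < N φ) (hq : q < N φ) (hσ : σ (v * N φ + p) = true) :
    σ (v * N φ + q) = true := by
  have hN : 0 < N φ := by omega
  have key : ∀ t, σ (v * N φ + (p + t) % N φ) = true := by
    intro t
    induction t with
    | zero => rw [Nat.add_zero, Nat.mod_eq_of_lt hp]; exact hσ
    | succ t ih =>
      have := step h hv (Nat.mod_lt (p + t) hN) ih
      rw [Nat.mod_add_mod] at this
      exact this
  have h1 := key (q + N φ - p)
  rw [show p + (q + N φ - p) = q + N φ by omega, Nat.add_mod_right, Nat.mod_eq_of_lt hq] at h1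
  exact h1

theorem sp_iff {φ : F3} (hb : Bounded3 φ) : SAT3 φ ↔ SAT3 (sp φ) := by
  unfold SAT3 Sat3V
  constructor
  · rintro ⟨τ, hτ⟩
    refine ⟨fun x => τ (x / N φ), ?_⟩
    intro c hc
    unfold sp at hc
    rw [List.mem_map] at hc
    obtain ⟨t, ht, rfl⟩ := hc
    rw [List.mem_range] at ht
    unfold cls
    split_ifs with h1
    · obtain ⟨b1, b2, b3⟩ := hb _ (getD_mem h1)
      have k1 := (keyv b1 (r := 3 * t) (by omega)).2.2
      have k2 := (keyv b2 (r := 3 * t + 1) (by omega)).2.2
      have k3 := (keyv b3 (r := 3 * t + 2) (by omega)).2.2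
      have h2 := hτ _ (getD_mem h1)
      simp only [clA]
      rw [k1, k2, k3]
      exact h2
    · set u := t - φ.length with hu
      have hult : u < N φ * N φ := by omega
      have hN : 0 < N φ := by
        rcases Nat.eq_zero_or_pos (N φ) with h0 | h0
        · rw [h0] at hult; omega
        · exact h0
      have h4 : (u % N φ + 1) % N φ < N φ := Nat.mod_lt _ hN
      have h5 : (u / N φ * N φ + (u % N φ + 1) % N φ) / N φ = u / N φ := by
        rw [Nat.mul_comm, Nat.mul_add_div hN, Nat.div_eq_of_lt h4, Nat.add_zero]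
      simp only [clB]
      rw [h5]
      cases hτu : τ (u / N φ) with
      | false => exact Or.inl rfl
      | true => exact Or.inr (Or.inl rfl)
  · rintro ⟨σ, h⟩
    refine ⟨fun v => σ (v * N φ), ?_⟩
    intro c hc
    obtain ⟨t, ht, rfl⟩ := List.getElem_of_mem hc
    have hget : φ.getD t d0 = φ[t] := List.getD_eq_getElem _ _ ht
    obtain ⟨b1, b2, b3⟩ := hb _ hc
    have hmem : clA φ t ∈ sp φ := by
      unfold sp
      rw [List.mem_map]
      refine ⟨t, ?_, ?_⟩
      · rw [List.mem_range]; omega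
      · unfold cls
        rw [if_pos ht]
    have conv : ∀ (v r : ℕ) (s : Bool), v < 3 * φ.length → r < 3 * φ.length →
        σ (v * N φ + r) = s → σ (v * N φ) = s := by
      intro v r s hv hr hs
      cases s with
      | true => exact allEq (v := v) (p := r) (q := 0) h hv hr (by unfold N; omega) hs
      | false =>
        by_contra hcon
        have h1 : σ (v * N φ + 0) = true := by
          rw [Nat.add_zero]
          simpa using hcon
        have h2 := allEq (v := v) (p := 0) (q := r) h hv (by unfold N; omega) hr h1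
        rw [hs] at h2
        exact absurd h2 (by decide)
    have h3 := h _ hmem
    unfold clA at h3
    rw [hget] at h3
    simp only at h3
    rcases h3 with h3 | h3 | h3
    · exact Or.inl (conv _ _ _ b1 (by omega) h3)
    · exact Or.inr (Or.inl (conv _ _ _ b2 (by omega) h3))
    · exact Or.inr (Or.inr (conv _ _ _ b3 (by omega) h3))

theorem uPoly_N : UPoly N := UPoly.mul (UPoly.const 3) (UPoly.length NPC.Poly.id)

@[fun_prop]
theorem poly_N : NPC.Poly N := uPoly_N.toPoly

theorem poly_cls : NPC.Poly (fun x : F3 × ℕ => cls x.1 x.2) := by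
  unfold cls clA clB
  fun_prop

theorem poly_sp : NPC.Poly sp := by
  unfold sp
  exact NPC.Poly.map (F := fun φ t => cls φ t) (UPoly.range (UPoly.add (UPoly.length NPC.Poly.id)
    (UPoly.mul uPoly_N uPoly_N))) poly_cls

/-- Satisfiability of formulas which arise by the construction is hard. -/
theorem hard_src : HardPr (fun ψ : F3 => ∃ φ, Bounded3 φ ∧ φ ≠ [] ∧ ψ = sp φ) SAT3 :=
  hardPr_SAT3b.trans poly_sp (fun φ h => ⟨φ, h.2.1, h.2.2, rfl⟩) (fun _ h => sp_iff h.2.1)

end Pool.Agent.Y403.CH
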